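import Pool.Agent.J4H20.LV.Stm

set_option autoImplicit false

/-! # Project LV: (T3) the choice of `s` modulo `q` -/

namespace Pool.Agent.J4H94.LV

open Polynomial Pool.Agent.J4H20.LV

/-- a nontrivial `m`-th root of unity modulo `q` -/
theorem exists_root {m q : ℕ} (hm : 2 ≤ m) [Fact q.Prime] (h : m ∣ q - 1) :
    ∃ z : ZMod q, z ^ m = 1 ∧ z ^ (m - 1) ≠ 1 := by
  have hp : (m.minFac).Prime := Nat.minFac_prime (by omega)
  haveI : Fact (m.minFac).Prime := ⟨hp⟩
  have hpm : m.minFac ∣ m := Nat.minFac_dvd m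
  have hc : m.minFac ∣ Fintype.card (ZMod q)ˣ := by rw [ZMod.card_units q]; exact hpm.trans h
  obtain ⟨u, hu⟩ := exists_prime_orderOf_dvd_card m.minFac hc
  have h1 : u ^ m = 1 := by
    obtain ⟨k, hk⟩ := hpm
    rw [hk, pow_mul, ← hu, pow_orderOf_eq_one, one_pow]
  refine ⟨(u : ZMod q), by rw [← Units.val_pow_eq_pow_val, h1, Units.val_one], ?_⟩
  intro h2
  have h3 : u ^ (m - 1) = 1 := by
    apply Units.ext
    rw [Units.val_pow_eq_pow_val, h2, Units.val_one]
  have h4 : u = 1 := by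
    have : u ^ m = u ^ (m - 1) * u := by rw [← pow_succ]; congr 1; omega
    rw [h1, h3, one_mul] at this
    exact this.symm
  rw [h4, orderOf_one] at hu
  have := hp.two_le
  omega

theorem t_T3 : S_T3 := by
  intro m e j k D
  classical
  refine ⟨0, fun q hq x _ hpq _ hH0 hQ0 hsq => ?_⟩
  have hm2 := D.hm
  obtain ⟨f, hf⟩ : ∃ f : ℤ[X], f = ∏ i, (X - C (D.a i)) := ⟨_, rfl⟩
  rw [← hf] at hQ0
  have hfgr : f = D.g ^ m + D.r := by rw [hf]; exact D.hf
  have hfe : ∏ l, (x - D.a l) = f.eval x := by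
    rw [hf]
    simp [eval_prod]
  obtain ⟨y₀, hy⟩ := hsq
  obtain ⟨G, hG⟩ : ∃ G : ZMod q, G = ((D.g.eval x : ℤ) : ZMod q) := ⟨_, rfl⟩
  obtain ⟨G', hG'⟩ : ∃ G' : ZMod q, G' = (((derivative D.g).eval x : ℤ) : ZMod q) := ⟨_, rfl⟩
  obtain ⟨H, hH⟩ : ∃ H : ZMod q, H = ((D.h.eval x : ℤ) : ZMod q) := ⟨_, rfl⟩
  obtain ⟨H', hH'⟩ : ∃ H' : ZMod q, H' = (((derivative D.h).eval x : ℤ) : ZMod q) := ⟨_, rfl⟩
  obtain ⟨F, hF⟩ : ∃ F : ZMod q, F = ((f.eval x : ℤ) : ZMod q) := ⟨_, rfl⟩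
  obtain ⟨F', hF'⟩ : ∃ F' : ZMod q, F' = (((derivative f).eval x : ℤ) : ZMod q) := ⟨_, rfl⟩
  rw [← hH] at hH0
  have hQ : (m : ZMod q) * F * H' - F' * H ≠ 0 := by
    have e : (((C (m : ℤ) * f * derivative D.h - derivative f * D.h).eval x : ℤ) : ZMod q) =
        (m : ZMod q) * F * H' - F' * H := by
      rw [eval_sub, eval_mul, eval_mul, eval_mul, eval_C, hF, hH', hF', hH]
      push_cast
      ring
    rw [← e]
    exact hQ0
  have h1 : y₀ ^ m = F := by
    rw [← hy, hF, ← hfe]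
    push_cast
    rfl
  obtain ⟨z, hz1, hz2⟩ := exists_root hm2 hpq
  obtain ⟨y, he1, he2⟩ : ∃ y : ZMod q, y ^ m = F ∧
      (m : ZMod q) * y ^ (m - 1) * (G' * H - G * H') + ((m : ZMod q) * F * H' - F' * H) ≠ 0 := by
    by_cases h : (m : ZMod q) * y₀ ^ (m - 1) * (G' * H - G * H') + ((m : ZMod q) * F * H' - F' * H) = 0
    · refine ⟨z * y₀, by rw [mul_pow, hz1, one_mul, h1], ?_⟩
      have e1 : (m : ZMod q) * (z * y₀) ^ (m - 1) * (G' * H - G * H') + ((m : ZMod q) * F * H' - F' * H) =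
          (1 - z ^ (m - 1)) * ((m : ZMod q) * F * H' - F' * H) := by
        rw [mul_pow]
        linear_combination z ^ (m - 1) * h
      rw [e1]
      exact mul_ne_zero (sub_ne_zero.2 (Ne.symm hz2)) hQ
    · exact ⟨y₀, h1, h⟩
  have hHi : H * H⁻¹ = 1 := mul_inv_cancel₀ hH0
  refine ⟨(y - G) * H⁻¹, fun c M hM hc => ?_⟩
  have hM0 : ((M : ℤ) : ZMod q) ≠ 0 := by
    intro h
    exact hM ((ZMod.intCast_zmod_eq_zero_iff_dvd _ _).1 h)
  have e0 : (M : ZMod q) * G + (c : ZMod q) * H = (M : ZMod q) * y := by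
    rw [hc]
    linear_combination (y - G) * (M : ZMod q) * hHi
  constructor
  · rw [← ZMod.intCast_zmod_eq_zero_iff_dvd]
    have e2 : (HL m D.g D.r D.h c M).eval x = (M * D.g.eval x + c * D.h.eval x) ^ m - M ^ m * f.eval x := by
      unfold HL
      rw [← hfgr, eval_sub, eval_pow, eval_add, eval_mul, eval_mul, eval_C, eval_C, eval_mul, eval_C]
    rw [e2]
    push_cast
    rw [← hG, ← hH, ← hF, e0, ← he1, mul_pow, sub_self]
  · rw [← ZMod.intCast_zmod_eq_zero_iff_dvd]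
    have e2 : (derivative (HL m D.g D.r D.h c M)).eval x = m * (M * D.g.eval x + c * D.h.eval x) ^ (m - 1) *
        (M * (derivative D.g).eval x + c * (derivative D.h).eval x) - M ^ m * (derivative f).eval x := by
      unfold HL
      rw [← hfgr, derivative_sub, derivative_pow, derivative_add, derivative_C_mul, derivative_C_mul,
        derivative_C_mul, eval_sub, eval_mul, eval_mul, eval_mul, eval_pow, eval_add, eval_mul, eval_mul, eval_add,
        eval_mul, eval_mul, eval_C, eval_C, eval_C, eval_C]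
    rw [e2]
    push_cast
    rw [← hG, ← hG', ← hH, ← hH', ← hF', e0]
    intro h0
    apply he2
    have hMm : (M : ZMod q) ^ m = (M : ZMod q) ^ (m - 1) * (M : ZMod q) := by
      rw [← pow_succ]; congr 1; omega
    have hym : y ^ (m - 1) * y = F := by
      rw [← pow_succ, ← he1]; congr 1; omega
    rw [mul_pow, hMm, hc] at h0
    have h3 : (M : ZMod q) ^ (m - 1) * (M : ZMod q) * ((m : ZMod q) * y ^ (m - 1) * (G' * H - G * H') +
        ((m : ZMod q) * F * H' - F' * H)) = 0 := by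
      linear_combination H * h0 - (m : ZMod q) * (M : ZMod q) ^ (m - 1) * (M : ZMod q) * H' * hym -
        (m : ZMod q) * (M : ZMod q) ^ (m - 1) * (M : ZMod q) * y ^ (m - 1) * (y - G) * H' * hHi
    rcases mul_eq_zero.1 h3 with h4 | h4
    · exact absurd h4 (mul_ne_zero (pow_ne_zero _ hM0) hM0)
    · exact h4

end Pool.Agent.J4H94.LV
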